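import Pool.Agent.Helper4.S7.StD3

/-!
# Project W7, module Sur: solving the inhomogeneous relation
-/

set_option autoImplicit false

namespace Pool.Agent.Helper88.S7

open Pool.Agent.Helper4.S7 Pool.Agent.Helper84.S7 Pool.Agent.Helper52.S7 Pool.Agent.Helper76.S7

private theorem decomp_Sur (hLow0 : S7Low0) (hBb : S7Bb) (r s : ℕ) (e : ℤ) (E : Fn7 (7 ^ r) (7 ^ s))
    (he : e < 7 ^ r + 7 ^ s - 2) (hE : E ∈ Wd7 e) :
    ∃ U V : Fn7 (7 ^ r) (7 ^ s), U ∈ Wd7 (e + 1) ∧ V ∈ Wd7 (e + 1) ∧ dX U + dY V = E := by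
  obtain ⟨_, _, _, _, hmono, _⟩ := hLow0 r s
  obtain ⟨h1, h2, h3, _, _, h6⟩ := hBb r s
  set c : ℕ → ℕ → ZMod 7 := fun i j =>
    ((dX ^ i * dY ^ j : Module.End (ZMod 7) (Fn7 (7 ^ r) (7 ^ s))) E) 0 0 with hc
  have hc0 : ∀ i j : ℕ, e < (i : ℤ) + j → c i j = 0 := by
    intro i j hij
    have : ((dX ^ i * dY ^ j : Module.End (ZMod 7) (Fn7 (7 ^ r) (7 ^ s))) E) = 0 := hE i j hij
    rw [hc]
    simp only [this]
    rfl
  have hj : ∀ i j : ℕ, i < 7 ^ r → (i : ℤ) + j ≤ e → ¬ (i + 1 < 7 ^ r) → j + 1 < 7 ^ s := by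
    intro i j hi hij hi1
    have h7 : i + 1 = 7 ^ r := by omega
    have h8 : (i : ℤ) + 1 = 7 ^ r := by exact_mod_cast h7
    have h9 : (j : ℤ) + 1 < 7 ^ s := by linarith
    exact_mod_cast h9
  refine ⟨∑ i ∈ Finset.range (7 ^ r), ∑ j ∈ Finset.range (7 ^ s),
      (if i + 1 < 7 ^ r then c i j • bb7 (i + 1) j else 0),
    ∑ i ∈ Finset.range (7 ^ r), ∑ j ∈ Finset.range (7 ^ s),
      (if i + 1 < 7 ^ r then 0 else c i j • bb7 i (j + 1)), ?_, ?_, ?_⟩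
  · refine Submodule.sum_mem _ fun i hi => Submodule.sum_mem _ fun j hj => ?_
    rw [Finset.mem_range] at hi hj
    split_ifs with h
    · by_cases hij : (i : ℤ) + j ≤ e
      · refine Submodule.smul_mem _ _ (hmono _ _ ?_ (h1 (i + 1) j h hj))
        push_cast
        linarith
      · rw [hc0 i j (not_le.1 hij), zero_smul]
        exact Submodule.zero_mem _
    · exact Submodule.zero_mem _
  · refine Submodule.sum_mem _ fun i hi => Submodule.sum_mem _ fun j _ => ?_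
    rw [Finset.mem_range] at hi
    split_ifs with h
    · exact Submodule.zero_mem _
    · by_cases hij : (i : ℤ) + j ≤ e
      · refine Submodule.smul_mem _ _ (hmono _ _ ?_ (h1 i (j + 1) hi (hj i j hi hij h)))
        push_cast
        linarith
      · rw [hc0 i j (not_le.1 hij), zero_smul]
        exact Submodule.zero_mem _
  · refine Eq.trans ?_ (h6 E).symm
    rw [map_sum, map_sum, ← Finset.sum_add_distrib]
    refine Finset.sum_congr rfl fun i hi => ?_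
    rw [map_sum, map_sum, ← Finset.sum_add_distrib]
    refine Finset.sum_congr rfl fun j hj' => ?_
    rw [Finset.mem_range] at hi hj'
    have hcc : ((dX ^ i * dY ^ j : Module.End (ZMod 7) (Fn7 (7 ^ r) (7 ^ s))) E) 0 0 = c i j := rfl
    rw [hcc]
    by_cases h : i + 1 < 7 ^ r
    · rw [if_pos h, if_pos h, map_smul, map_zero, add_zero, h2 i j h hj']
    · rw [if_neg h, if_neg h, map_smul, map_zero, zero_add]
      by_cases hij : (i : ℤ) + j ≤ e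
      · rw [h3 i j hi (hj i j hi hij h)]
      · rw [hc0 i j (not_le.1 hij), zero_smul, zero_smul]

/-- The algebra of one step. -/
private theorem alg_Sur {M : Type} [AddCommGroup M] [Module (ZMod 7) M] (W : Submodule (ZMod 7) M)
    (E E0 E3 P TP XP Q aQ bQ wQ x y z : M)
    (h1 : TP - P - XP ∈ W)
    (h2 : aQ - (wQ + (3 : ZMod 7) • x + (2 : ZMod 7) • y) ∈ W)
    (h3 : bQ - (wQ + (5 : ZMod 7) • x + (5 : ZMod 7) • y) ∈ W)
    (h4 : y - z ∈ W) (h5 : E0 + E3 - (XP + z) ∈ W) :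
    (E - (-P - -TP - ((2 : ZMod 7) • Q - (2 : ZMod 7) • aQ) -
      ((-2 : ZMod 7) • Q - (-2 : ZMod 7) • bQ))) - (E - E0 - E3 - (3 : ZMod 7) • x) ∈ W := by
  have h6 : (2 * 3 - 2 * 5 - 3 : ZMod 7) = 0 := by decide
  have h7 : (2 * 2 - 2 * 5 - 1 : ZMod 7) = 0 := by decide
  have h8 : (E - (-P - -TP - ((2 : ZMod 7) • Q - (2 : ZMod 7) • aQ) -
      ((-2 : ZMod 7) • Q - (-2 : ZMod 7) • bQ))) - (E - E0 - E3 - (3 : ZMod 7) • x) =
      -(TP - P - XP) - (2 : ZMod 7) • (aQ - (wQ + (3 : ZMod 7) • x + (2 : ZMod 7) • y)) +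
        (2 : ZMod 7) • (bQ - (wQ + (5 : ZMod 7) • x + (5 : ZMod 7) • y)) - (y - z) +
        (E0 + E3 - (XP + z)) - (2 * 3 - 2 * 5 - 3 : ZMod 7) • x -
        (2 * 2 - 2 * 5 - 1 : ZMod 7) • y := by
    module
  rw [h8, h6, h7, zero_smul, zero_smul, sub_zero, sub_zero]
  exact Submodule.add_mem _ (Submodule.sub_mem _ (Submodule.add_mem _ (Submodule.sub_mem _
    (Submodule.neg_mem _ h1) (Submodule.smul_mem _ _ h2)) (Submodule.smul_mem _ _ h3)) h4) h5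

/-- One step of the induction. -/
private theorem step_Sur (hLow0 : S7Low0) (hNfa : S7Nfa) (hLw1 : S7Lw1) (hPj : S7Pj)
    (hBb : S7Bb) (hSta : S7Sta)
    (r s : ℕ) (e : ℤ) (E : Fn7 (7 ^ r) (7 ^ s)) (he : e < 7 ^ r + 7 ^ s - 2) (hE : E ∈ Wd7 e) :
    ∃ f a b : Fn7 (7 ^ r) (7 ^ s), f ∈ Wd7 (e + 1) ∧ a ∈ Wd7 (e + 1) ∧ b ∈ Wd7 (e + 1) ∧
      E - (f - op7 1 1 0 1 f - (a - op7 2 (-1) 1 (-3) a) - (b - op7 5 (-3) 1 (-4) b)) ∈
        (Wd7 (e - 1) : Submodule (ZMod 7) (Fn7 (7 ^ r) (7 ^ s))) := by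
  obtain ⟨_, _, _, _, hmono, _, hdX, hdY, _⟩ := hLow0 r s
  obtain ⟨hW0, _, _, _, _, _, hA, _⟩ := hNfa r s
  obtain ⟨hp0, _, hp6, hpw, hpp, hpd, _⟩ := hPj r s
  obtain ⟨P, Q, hP, hQ, hPQ⟩ := decomp_Sur hLow0 hBb r s e E he hE
  -- projections preserve degrees
  have hp : ∀ (c : ℕ) (d : ℤ) (F : Fn7 (7 ^ r) (7 ^ s)), F ∈ Wd7 d → pj c F ∈ Wd7 d := by
    intro c d F hF
    have := hp0 c d F hF
    rwa [sub_zero] at this
  have hw : ∀ (d : ℤ) (F : Fn7 (7 ^ r) (7 ^ s)), F ∈ Wd7 d → oW 4 F ∈ Wd7 d := by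
    intro d F hF
    have := hW0 4 d F hF
    rwa [sub_zero] at this
  have hx : ∀ F : Fn7 (7 ^ r) (7 ^ s), F ∈ Wd7 (e + 1) → dX F ∈ Wd7 e := by
    intro F hF
    have := hdX _ F hF
    rwa [add_sub_cancel_right] at this
  have hy : ∀ F : Fn7 (7 ^ r) (7 ^ s), F ∈ Wd7 (e + 1) → dY F ∈ Wd7 e := by
    intro F hF
    have := hdY _ F hF
    rwa [add_sub_cancel_right] at this
  have h8 : (pj 8 : Module.End (ZMod 7) (Fn7 (7 ^ r) (7 ^ s))) = pj 2 := hp6 2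
  -- commutation of projections and differences
  have hcx : ∀ (c : ℕ) (F : Fn7 (7 ^ r) (7 ^ s)), F ∈ Wd7 (e + 1) →
      pj c (dX F) - dX (pj (c + 1) F) ∈
        (Wd7 (e - 1) : Submodule (ZMod 7) (Fn7 (7 ^ r) (7 ^ s))) := by
    intro c F hF
    exact hmono _ _ (by linarith) ((hpd c).1 _ F hF)
  have hcy : ∀ (c : ℕ) (F : Fn7 (7 ^ r) (7 ^ s)), F ∈ Wd7 (e + 1) →
      pj c (dY F) - dY (pj (c + 5) F) ∈
        (Wd7 (e - 1) : Submodule (ZMod 7) (Fn7 (7 ^ r) (7 ^ s))) := by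
    intro c F hF
    exact hmono _ _ (by linarith) ((hpd c).2 _ F hF)
  -- the root of unity acts trivially on the classes 0 and 3
  have ho0 : (((om6 4) ^ 0 : ℤ) : ZMod 7) = 1 := by decide
  have ho3 : (((om6 4) ^ 3 : ℤ) : ZMod 7) = 1 := by decide
  have hwp : ∀ (c : ℕ) (F : Fn7 (7 ^ r) (7 ^ s)), (c = 0 ∨ c = 3) → F ∈ Wd7 e →
      oW 4 (pj c F) - pj c F ∈ (Wd7 (e - 1) : Submodule (ZMod 7) (Fn7 (7 ^ r) (7 ^ s))) := by
    intro c F hc hF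
    have h9 := hmono _ (e - 1) (by linarith) ((hpw c 4).2 _ F hF)
    have h10 : (((om6 4) ^ c : ℤ) : ZMod 7) = 1 := by
      rcases hc with rfl | rfl
      · exact ho0
      · exact ho3
    rw [h10, one_smul] at h9
    exact h9
  have hpw' : ∀ (c : ℕ) (F : Fn7 (7 ^ r) (7 ^ s)), (c = 0 ∨ c = 3) → F ∈ Wd7 e →
      pj c (oW 4 F) - pj c F ∈ (Wd7 (e - 1) : Submodule (ZMod 7) (Fn7 (7 ^ r) (7 ^ s))) := by
    intro c F hc hF
    have h9 := hmono _ (e - 1) (by linarith) ((hpw c 4).1 _ F hF)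
    have h10 : (((om6 4) ^ c : ℤ) : ZMod 7) = 1 := by
      rcases hc with rfl | rfl
      · exact ho0
      · exact ho3
    rw [h10, one_smul] at h9
    exact h9
  -- orthogonality
  have hor : ∀ (c c' : ℕ) (d : ℤ) (F : Fn7 (7 ^ r) (7 ^ s)), c < 6 → c' < 6 → c ≠ c' → F ∈ Wd7 d →
      pj c (pj c' F) ∈ (Wd7 (d - 9) : Submodule (ZMod 7) (Fn7 (7 ^ r) (7 ^ s))) := by
    intro c c' d F hc hc' hne hF
    have h9 := hpp c c' hc hc' _ F hF
    rw [if_neg hne, sub_zero] at h9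
    exact h9
  have hid : ∀ (c : ℕ) (d : ℤ) (F : Fn7 (7 ^ r) (7 ^ s)), c < 6 → F ∈ Wd7 d →
      pj c (pj c F) - pj c F ∈ (Wd7 (d - 9) : Submodule (ZMod 7) (Fn7 (7 ^ r) (7 ^ s))) := by
    intro c d F hc hF
    have h9 := hpp c c hc hc _ F hF
    rw [if_pos rfl] at h9
    exact h9
  -- the functions
  obtain ⟨P', hP'⟩ : ∃ P' : Fn7 (7 ^ r) (7 ^ s), P' = pj 1 P + pj 4 P := ⟨_, rfl⟩
  obtain ⟨Q', hQ'⟩ : ∃ Q' : Fn7 (7 ^ r) (7 ^ s), Q' = pj 5 Q + pj 2 Q := ⟨_, rfl⟩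
  have hP'm : P' ∈ Wd7 (e + 1) := by
    rw [hP']; exact Submodule.add_mem _ (hp 1 _ _ hP) (hp 4 _ _ hP)
  have hQ'm : Q' ∈ Wd7 (e + 1) := by
    rw [hQ']; exact Submodule.add_mem _ (hp 5 _ _ hQ) (hp 2 _ _ hQ)
  have g1 : op7 1 1 0 1 P' - P' - dX P' ∈
      (Wd7 (e - 1) : Submodule (ZMod 7) (Fn7 (7 ^ r) (7 ^ s))) :=
    hmono _ _ (by linarith) (hA _ _ hP'm)
  have g2 : op7 2 (-1) 1 (-3) Q' - (oW 4 Q' + (3 : ZMod 7) • oW 4 (dX Q') +
      (2 : ZMod 7) • oW 4 (dY Q')) ∈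
      (Wd7 (e - 1) : Submodule (ZMod 7) (Fn7 (7 ^ r) (7 ^ s))) := by
    have h9 := hmono _ (e - 1) (by linarith)
      (((hLw1 r s 2 (-1) 1 (-3) (by norm_num) (by norm_num)).2 4 (by decide)).2 _ _ hQ'm)
    have h10 : (((-1) * 2 ^ 5 : ℤ) : ZMod 7) = 3 := by decide
    have h11 : ((1 * 2 ^ 5 * om6 4 ^ 5 : ℤ) : ZMod 7) = 2 := by decide
    rw [h10, h11] at h9
    have h12 : ((op7 2 (-1) 1 (-3) - oW 4 * (1 + (3 : ZMod 7) • dX + (2 : ZMod 7) • dY) :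
        Module.End (ZMod 7) (Fn7 (7 ^ r) (7 ^ s))) Q') = op7 2 (-1) 1 (-3) Q' -
        (oW 4 Q' + (3 : ZMod 7) • oW 4 (dX Q') + (2 : ZMod 7) • oW 4 (dY Q')) := by
      rw [LinearMap.sub_apply, Module.End.mul_apply, LinearMap.add_apply, LinearMap.add_apply,
        LinearMap.smul_apply, LinearMap.smul_apply, Module.End.one_apply, map_add (oW 4),
        map_add (oW 4), map_smul, map_smul]
    rw [← h12]
    exact h9
  have g3 : op7 5 (-3) 1 (-4) Q' - (oW 4 Q' + (5 : ZMod 7) • oW 4 (dX Q') +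
      (5 : ZMod 7) • oW 4 (dY Q')) ∈
      (Wd7 (e - 1) : Submodule (ZMod 7) (Fn7 (7 ^ r) (7 ^ s))) := by
    have h9 := hmono _ (e - 1) (by linarith)
      (((hLw1 r s 5 (-3) 1 (-4) (by norm_num) (by norm_num)).2 4 (by decide)).2 _ _ hQ'm)
    have h10 : (((-3) * 5 ^ 5 : ℤ) : ZMod 7) = 5 := by decide
    have h11 : ((1 * 5 ^ 5 * om6 4 ^ 5 : ℤ) : ZMod 7) = 5 := by decide
    rw [h10, h11] at h9
    have h12 : ((op7 5 (-3) 1 (-4) - oW 4 * (1 + (5 : ZMod 7) • dX + (5 : ZMod 7) • dY) :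
        Module.End (ZMod 7) (Fn7 (7 ^ r) (7 ^ s))) Q') = op7 5 (-3) 1 (-4) Q' -
        (oW 4 Q' + (5 : ZMod 7) • oW 4 (dX Q') + (5 : ZMod 7) • oW 4 (dY Q')) := by
      rw [LinearMap.sub_apply, Module.End.mul_apply, LinearMap.add_apply, LinearMap.add_apply,
        LinearMap.smul_apply, LinearMap.smul_apply, Module.End.one_apply, map_add (oW 4),
        map_add (oW 4), map_smul, map_smul]
    rw [← h12]
    exact h9
  -- `dY Q'` has the classes 0 and 3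
  have g0 : dY Q' - (pj 0 (dY Q) + pj 3 (dY Q)) ∈
      (Wd7 (e - 1) : Submodule (ZMod 7) (Fn7 (7 ^ r) (7 ^ s))) := by
    have h9 := hcy 0 Q hQ
    have h10 := hcy 3 Q hQ
    have h11 : (3 + 5 : ℕ) = 8 := rfl
    rw [h11, h8] at h10
    have h12 : dY Q' - (pj 0 (dY Q) + pj 3 (dY Q)) =
        -(pj 0 (dY Q) - dY (pj (0 + 5) Q)) - (pj 3 (dY Q) - dY (pj 2 Q)) := by
      rw [hQ', map_add dY]
      abel
    rw [h12]
    exact Submodule.sub_mem _ (Submodule.neg_mem _ h9) h10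
  have g4 : oW 4 (dY Q') - dY Q' ∈ (Wd7 (e - 1) : Submodule (ZMod 7) (Fn7 (7 ^ r) (7 ^ s))) := by
    have h9 := hw _ _ g0
    have h10 := hwp 0 (dY Q) (Or.inl rfl) (hy _ hQ)
    have h11 := hwp 3 (dY Q) (Or.inr rfl) (hy _ hQ)
    have h12 : oW 4 (dY Q') - dY Q' = oW 4 (dY Q' - (pj 0 (dY Q) + pj 3 (dY Q))) +
        (oW 4 (pj 0 (dY Q)) - pj 0 (dY Q)) + (oW 4 (pj 3 (dY Q)) - pj 3 (dY Q)) -
        (dY Q' - (pj 0 (dY Q) + pj 3 (dY Q))) := by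
      rw [map_sub (oW 4), map_add (oW 4)]
      abel
    rw [h12]
    exact Submodule.sub_mem _ (Submodule.add_mem _ (Submodule.add_mem _ h9 h10) h11) g0
  have g5 : pj 0 E + pj 3 E - (dX P' + dY Q') ∈
      (Wd7 (e - 1) : Submodule (ZMod 7) (Fn7 (7 ^ r) (7 ^ s))) := by
    have h9 := hcx 0 P hP
    have h10 := hcx 3 P hP
    have h12 : pj 0 E + pj 3 E - (dX P' + dY Q') =
        (pj 0 (dX P) - dX (pj (0 + 1) P)) + (pj 3 (dX P) - dX (pj (3 + 1) P)) -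
        (dY Q' - (pj 0 (dY Q) + pj 3 (dY Q))) := by
      rw [← hPQ, hP', map_add (pj 0), map_add (pj 3), map_add dX]
      abel
    rw [h12]
    exact Submodule.sub_mem _ (Submodule.add_mem _ h9 h10) g0
  -- the error
  have hR := alg_Sur (Wd7 (e - 1) : Submodule (ZMod 7) (Fn7 (7 ^ r) (7 ^ s))) E (pj 0 E) (pj 3 E)
    P' (op7 1 1 0 1 P') (dX P') Q' (op7 2 (-1) 1 (-3) Q') (op7 5 (-3) 1 (-4) Q') (oW 4 Q')
    (oW 4 (dX Q')) (oW 4 (dY Q')) (dY Q') g1 g2 g3 g4 g5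
  have hf : (op7 1 1 0 1 (-P') : Fn7 (7 ^ r) (7 ^ s)) = -op7 1 1 0 1 P' := map_neg _ _
  have hfa : (op7 2 (-1) 1 (-3) ((2 : ZMod 7) • Q') : Fn7 (7 ^ r) (7 ^ s)) =
      (2 : ZMod 7) • op7 2 (-1) 1 (-3) Q' := map_smul _ _ _
  have hfb : (op7 5 (-3) 1 (-4) ((-2 : ZMod 7) • Q') : Fn7 (7 ^ r) (7 ^ s)) =
      (-2 : ZMod 7) • op7 5 (-3) 1 (-4) Q' := map_smul _ _ _
  rw [← hf, ← hfa, ← hfb] at hR
  obtain ⟨R, hRdef⟩ : ∃ R : Fn7 (7 ^ r) (7 ^ s), R = E - (-P' - op7 1 1 0 1 (-P') -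
      ((2 : ZMod 7) • Q' - op7 2 (-1) 1 (-3) ((2 : ZMod 7) • Q')) -
      ((-2 : ZMod 7) • Q' - op7 5 (-3) 1 (-4) ((-2 : ZMod 7) • Q'))) := ⟨_, rfl⟩
  rw [← hRdef] at hR
  -- the error has no classes 0 and 3
  have hcl : ∀ c : ℕ, (c = 0 ∨ c = 3) → pj c (oW 4 (dX Q')) ∈
      (Wd7 (e - 1) : Submodule (ZMod 7) (Fn7 (7 ^ r) (7 ^ s))) := by
    intro c hc
    have h9 := hpw' c (dX Q') hc (hx _ hQ'm)
    have h10 := hcx c Q' hQ'm
    have h11 : pj (c + 1) Q' ∈ (Wd7 (e - 1) : Submodule (ZMod 7) (Fn7 (7 ^ r) (7 ^ s))) := by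
      rw [hQ', map_add (pj (c + 1))]
      rcases hc with rfl | rfl
      · exact Submodule.add_mem _
          (hmono _ _ (by linarith) (hor 1 5 _ _ (by norm_num) (by norm_num) (by norm_num) hQ))
          (hmono _ _ (by linarith) (hor 1 2 _ _ (by norm_num) (by norm_num) (by norm_num) hQ))
      · exact Submodule.add_mem _
          (hmono _ _ (by linarith) (hor 4 5 _ _ (by norm_num) (by norm_num) (by norm_num) hQ))
          (hmono _ _ (by linarith) (hor 4 2 _ _ (by norm_num) (by norm_num) (by norm_num) hQ))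
    have h12 : dX (pj (c + 1) Q') ∈
        (Wd7 (e - 1) : Submodule (ZMod 7) (Fn7 (7 ^ r) (7 ^ s))) :=
      hmono _ _ (by linarith) (hdX _ _ h11)
    have h13 : pj c (oW 4 (dX Q')) = (pj c (oW 4 (dX Q')) - pj c (dX Q')) +
        (pj c (dX Q') - dX (pj (c + 1) Q')) + dX (pj (c + 1) Q') := by abel
    rw [h13]
    exact Submodule.add_mem _ (Submodule.add_mem _ h9 h10) h12
  have hRe : R = (R - (E - pj 0 E - pj 3 E - (3 : ZMod 7) • oW 4 (dX Q'))) +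
      (E - pj 0 E - pj 3 E - (3 : ZMod 7) • oW 4 (dX Q')) := by abel
  have hR0 : pj 0 R ∈ (Wd7 (e - 1) : Submodule (ZMod 7) (Fn7 (7 ^ r) (7 ^ s))) := by
    rw [hRe, map_add (pj 0), map_sub (pj 0) (E - pj 0 E - pj 3 E), map_sub (pj 0) (E - pj 0 E),
      map_sub (pj 0) E, map_smul]
    have h9 := hmono _ (e - 1) (by linarith) (hid 0 e E (by norm_num) hE)
    have h10 := hmono _ (e - 1) (by linarith)
      (hor 0 3 e E (by norm_num) (by norm_num) (by norm_num) hE)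
    have h11 := hcl 0 (Or.inl rfl)
    refine Submodule.add_mem _ (hp 0 _ _ hR) (Submodule.sub_mem _ (Submodule.sub_mem _ ?_ h10)
      (Submodule.smul_mem _ _ h11))
    have h12 : pj 0 E - pj 0 (pj 0 E) = -(pj 0 (pj 0 E) - pj 0 E) := by abel
    rw [h12]
    exact Submodule.neg_mem _ h9
  have hR3 : pj 3 R ∈ (Wd7 (e - 1) : Submodule (ZMod 7) (Fn7 (7 ^ r) (7 ^ s))) := by
    rw [hRe, map_add (pj 3), map_sub (pj 3) (E - pj 0 E - pj 3 E), map_sub (pj 3) (E - pj 0 E),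
      map_sub (pj 3) E, map_smul]
    have h9 := hmono _ (e - 1) (by linarith) (hid 3 e E (by norm_num) hE)
    have h10 := hmono _ (e - 1) (by linarith)
      (hor 3 0 e E (by norm_num) (by norm_num) (by norm_num) hE)
    have h11 := hcl 3 (Or.inr rfl)
    refine Submodule.add_mem _ (hp 3 _ _ hR) (Submodule.sub_mem _ ?_ (Submodule.smul_mem _ _ h11))
    have h12 : pj 3 E - pj 3 (pj 0 E) - pj 3 (pj 3 E) =
        -(pj 3 (pj 3 E) - pj 3 E) - pj 3 (pj 0 E) := by abel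
    rw [h12]
    exact Submodule.sub_mem _ (Submodule.neg_mem _ h9) h10
  have hRm : R ∈ (Wd7 e : Submodule (ZMod 7) (Fn7 (7 ^ r) (7 ^ s))) := by
    rw [hRe]
    refine Submodule.add_mem _ (hmono _ _ (by linarith) hR) (Submodule.sub_mem _
      (Submodule.sub_mem _ (Submodule.sub_mem _ hE (hp 0 _ _ hE)) (hp 3 _ _ hE))
      (Submodule.smul_mem _ _ (hw _ _ (hx _ hQ'm))))
  obtain ⟨a', ha', ha''⟩ := hSta r s e R hRm hR0 hR3
  refine ⟨-P', (2 : ZMod 7) • Q' + a', (-2 : ZMod 7) • Q', Submodule.neg_mem _ hP'm,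
    Submodule.add_mem _ (Submodule.smul_mem _ _ hQ'm) (hmono _ _ (by linarith) ha'),
    Submodule.smul_mem _ _ hQ'm, ?_⟩
  have h14 : E - (-P' - op7 1 1 0 1 (-P') - ((2 : ZMod 7) • Q' + a' -
      op7 2 (-1) 1 (-3) ((2 : ZMod 7) • Q' + a')) -
      ((-2 : ZMod 7) • Q' - op7 5 (-3) 1 (-4) ((-2 : ZMod 7) • Q'))) =
      R + (a' - op7 2 (-1) 1 (-3) a') := by
    rw [hRdef, map_add (op7 2 (-1) 1 (-3))]
    abel
  rw [h14]
  exact ha''

private theorem main_Sur (hLow0 : S7Low0) (hNfa : S7Nfa) (hLw1 : S7Lw1) (hPj : S7Pj)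
    (hBb : S7Bb) (hSta : S7Sta) (r s : ℕ) :
    ∀ (n : ℕ) (e : ℤ) (E : Fn7 (7 ^ r) (7 ^ s)), e < n → e < 7 ^ r + 7 ^ s - 2 → E ∈ Wd7 e →
    ∃ f a b : Fn7 (7 ^ r) (7 ^ s), f ∈ Wd7 (e + 1) ∧ a ∈ Wd7 (e + 1) ∧ b ∈ Wd7 (e + 1) ∧
      f - op7 1 1 0 1 f - (a - op7 2 (-1) 1 (-3) a) - (b - op7 5 (-3) 1 (-4) b) = E := by
  have hL := hLow0 r s
  obtain ⟨_, _, _, _, hmono, _, _, _, _, _, _, _, _, hneg⟩ := hL
  intro n
  induction n with
  | zero =>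
    intro e E he _ hE
    have h1 : E = 0 := hneg E (hmono e (-1) (by
      have : e < 0 := by exact_mod_cast he
      omega) hE)
    refine ⟨0, 0, 0, Submodule.zero_mem _, Submodule.zero_mem _, Submodule.zero_mem _, ?_⟩
    rw [h1, map_zero, map_zero, map_zero]
    simp
  | succ n ih =>
    intro e E he he2 hE
    obtain ⟨f, a, b, hf, ha, hb, hR⟩ := step_Sur hLow0 hNfa hLw1 hPj hBb hSta r s e E he2 hE
    obtain ⟨f', a', b', hf', ha', hb', hR'⟩ := ih (e - 1) _ (by push_cast at he; linarith)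
      (by linarith) hR
    have h6 : e - 1 + 1 = e := by ring
    rw [h6] at hf' ha' hb'
    refine ⟨f + f', a + a', b + b', Submodule.add_mem _ hf (hmono _ _ (by linarith) hf'),
      Submodule.add_mem _ ha (hmono _ _ (by linarith) ha'),
      Submodule.add_mem _ hb (hmono _ _ (by linarith) hb'), ?_⟩
    rw [map_add (op7 1 1 0 1) f f', map_add (op7 2 (-1) 1 (-3)) a a',
      map_add (op7 5 (-3) 1 (-4)) b b']
    have h7 : f + f' - (op7 1 1 0 1 f + op7 1 1 0 1 f') -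
        (a + a' - (op7 2 (-1) 1 (-3) a + op7 2 (-1) 1 (-3) a')) -
        (b + b' - (op7 5 (-3) 1 (-4) b + op7 5 (-3) 1 (-4) b')) =
        (f - op7 1 1 0 1 f - (a - op7 2 (-1) 1 (-3) a) - (b - op7 5 (-3) 1 (-4) b)) +
        (f' - op7 1 1 0 1 f' - (a' - op7 2 (-1) 1 (-3) a') - (b' - op7 5 (-3) 1 (-4) b')) := by
      abel
    rw [h7, hR']
    abel

theorem hSur (hm : S7Trm) (hl : S7Low0) (hn : S7Nfa) (h1 : S7Lw1) (hj : S7Pj) (hb : S7Bb)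
    (ha : S7Sta) : S7Sur := by
  have _ := hm
  intro r s e E he hE
  exact main_Sur hl hn h1 hj hb ha r s (e + 1).toNat e E (by
    have := Int.self_le_toNat (e + 1)
    linarith) he hE

end Pool.Agent.Helper88.S7
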